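import Pool.Agent.H30.KZS.Conv

/-!
# MP_2e24ef_al, Q1: a negative answer in every cohomological dimension `n ≥ 3`, over every field

Weigel asked whether `b_2 ≤ (n-1)/(2n) b_1^2` holds for every Koszul algebra of cohomological
dimension `n`. For every field `k` and every `n ≥ 3` we give a Koszul algebra `A = T(V)/(R)` of
cohomological dimension `n` with `b_1 = 2n+1` and `b_2 = 2n^2-1`; these violate the inequality.

The algebra for `n = 3 + m` (left modules throughout). Generators: `X (i,j)` for `i, j ∈ {0,1}`,
`Y 0`, `Y 1`, `U`, and `W l c` for `l < m`, `c ∈ {0,1}`. Relations: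

* `X p * Y l = 0` (8 relations), `U * X p = 0` (4), `U * Y 0 = 0` (1),
* `X (1,j) * X (0,i) = Y 1 * X (i,j)` (4 relations),
* `g * W l c = 0` for every generator `g` among the `X`, `Y`, `U` and the `W l' c'` with `l' < l`.

For `m = 0` the Betti numbers are `1, 7, 17, 16`, and in general their generating polynomial is
`(1 + 7t + 17t^2 + 16t^3)(1 + 2t)^m`.

Proof. A lemma of Fox type (`ker_abs`): if `∑ a_g g = 0` in `A` then `(a_g)` lies in the left
submodule of `A^G` generated by the vectors of the relations. As each relation has a well defined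
last letter (or, for the `XX`-relations, last letters among the `X`), this gives all annihilators:
`α U = 0` iff `α = 0`; `α Y_1 = 0` iff `α ∈ AX`; `α Y_0 = 0` iff `α ∈ AX + AU`; `α W_l = 0` iff
`α` is in the left ideal generated by the generators of lower level; and the syzygies of the `X p`
are generated by 8 vectors, which turn out to be linearly independent over `A` (`inj_SS`). From
this a finite linear free resolution of `k` is assembled; the Betti numbers are read off it.
-/

open KZS

universe u

namespace Pool.Agent.Results.MP_2e24ef_al.Q1False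

/-- **Weigel's inequality fails in every cohomological dimension `n ≥ 3`, over every field.**
For every field `k` and every `n ≥ 3` there is a Koszul algebra `A = T(V)/(R)` over `k` with
`dim_k Ext^i_A(k,k) = b i`, of cohomological dimension `n`, with `b 1 = 2n+1` and
`b 2 = 2n^2-1 > (n-1)/(2n) (b 1)^2`. -/
theorem result (k : Type u) [Field k] (n : ℕ) (hn : 3 ≤ n) :
    ∃ (V A : Type u) (_ : AddCommGroup V) (_ : Module k V) (_ : Ring A) (_ : Algebra k A)
      (g : V → A) (b : ℕ → ℕ), IsKoszul k g b ∧
      b n ≠ 0 ∧ (∀ i, n < i → b i = 0) ∧ b 1 = 2 * n + 1 ∧ b 2 + 1 = 2 * n ^ 2 ∧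
      ((n : ℝ) - 1) / (2 * n) * (b 1 : ℝ) ^ 2 < (b 2 : ℝ) :=
  KZS.main k n hn

end Pool.Agent.Results.MP_2e24ef_al.Q1False
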